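import Mathlib

set_option autoImplicit false

/-! No nonprincipal ultrafilter `p` satisfies `E₁(p,p) = E₂(p,p)`. -/

namespace Pool.Agent.Results.MP_d3b762_co.Main

/-- The largest exponent `k` with `x` a perfect `k`-th power (for `x ≥ 2`): the gcd of the
exponents in the prime factorization. -/
def kk (x : ℕ) : ℕ := x.primeFactors.gcd x.factorization

theorem kk_pow (n m : ℕ) (hm : m ≠ 0) : kk (n ^ m) = m * kk n := by
  unfold kk
  rw [Nat.primeFactors_pow n hm, Nat.factorization_pow]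
  have : (n.primeFactors.gcd fun p => (m • n.factorization) p) =
      n.primeFactors.gcd fun p => m * n.factorization p := by
    apply Finset.gcd_congr rfl
    intro p _
    simp
  rw [show (n.primeFactors.gcd ⇑(m • n.factorization)) =
    (n.primeFactors.gcd fun p => (m • n.factorization) p) from rfl, this, Finset.gcd_mul_left]
  simp

theorem exists_prime_pow_dvd (x : ℕ) (hx : 2 ≤ x) :
    ∃ p, p.Prime ∧ kk x ∣ x.factorization p ∧ 1 ≤ x.factorization p := by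
  obtain ⟨p, hp, hpx⟩ := Nat.exists_prime_and_dvd (show x ≠ 1 by omega)
  have hmem : p ∈ x.primeFactors := by
    rw [Nat.mem_primeFactors]; exact ⟨hp, hpx, by omega⟩
  exact ⟨p, hp, Finset.gcd_dvd hmem, (hp.dvd_iff_one_le_factorization (by omega)).1 hpx⟩

theorem one_le_kk (x : ℕ) (hx : 2 ≤ x) : 1 ≤ kk x := by
  obtain ⟨p, _, h1, h2⟩ := exists_prime_pow_dvd x hx
  rcases Nat.eq_zero_or_pos (kk x) with h | h
  · rw [h] at h1
    have := Nat.eq_zero_of_zero_dvd h1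
    omega
  · exact h

theorem two_pow_kk_le (x : ℕ) (hx : 2 ≤ x) : 2 ^ kk x ≤ x := by
  obtain ⟨p, hp, h1, h2⟩ := exists_prime_pow_dvd x hx
  calc 2 ^ kk x ≤ p ^ kk x := Nat.pow_le_pow_left hp.two_le _
    _ ≤ p ^ x.factorization p := Nat.pow_le_pow_right hp.pos (Nat.le_of_dvd h2 h1)
    _ ≤ x := Nat.le_of_dvd (by omega) (Nat.ordProj_dvd x p)

/-! ### Towers -/

/-- The tower of twos over `a`. -/
def T (a : ℕ) : ℕ → ℕ
  | 0 => a
  | j + 1 => 2 ^ T a j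

theorem T_lt (a j : ℕ) : T a j < T a (j + 1) := by
  show T a j < 2 ^ T a j
  exact Nat.lt_two_pow_self

theorem T_strictMono (a : ℕ) : StrictMono (T a) := strictMono_nat_of_lt_succ (T_lt a)

/-- Even levels of the tower. -/
def Ev (a : ℕ) : Set ℕ := {x | ∃ j, Even j ∧ T a j ≤ x ∧ x < T a (j + 1)}

theorem mem_Ev_iff (a x j : ℕ) (h1 : T a j ≤ x) (h2 : x < T a (j + 1)) :
    x ∈ Ev a ↔ Even j := by
  constructor
  · rintro ⟨i, hi, h3, h4⟩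
    have h5 : i < j + 1 := (T_strictMono a).lt_iff_lt.1 (lt_of_le_of_lt h3 h2)
    have h6 : j < i + 1 := (T_strictMono a).lt_iff_lt.1 (lt_of_le_of_lt h1 h4)
    have : i = j := by omega
    rwa [← this]
  · intro h
    exact ⟨j, h, h1, h2⟩

/-- `K` and `4 K ^ 2` lie on the same level. -/
def Gd (a K : ℕ) : Prop := ∃ j, T a j ≤ K ∧ 4 * K ^ 2 < T a (j + 1)

theorem flip (a K x y : ℕ) (h : Gd a K) (hx1 : K ≤ x) (hx2 : x ≤ 4 * K ^ 2)
    (hy1 : 2 ^ K ≤ y) (hy2 : y ≤ 2 ^ (4 * K ^ 2)) : (y ∈ Ev a ↔ x ∉ Ev a) := by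
  obtain ⟨j, h1, h2⟩ := h
  have e1 := mem_Ev_iff a x j (h1.trans hx1) (lt_of_le_of_lt hx2 h2)
  have e2 := mem_Ev_iff a y (j + 1)
    (le_trans (show 2 ^ T a j ≤ 2 ^ K from Nat.pow_le_pow_right (by norm_num) h1) hy1)
    (lt_of_le_of_lt hy2 (show 2 ^ (4 * K ^ 2) < 2 ^ T a (j + 1) from
      Nat.pow_lt_pow_right (by norm_num) h2))
  rw [e1, e2, Nat.even_add_one]

theorem interlace (j : ℕ) :
    1 ≤ T 100 j ∧ 4 * T 100 j ^ 2 < T 50000 j ∧ 4 * T 50000 j ^ 2 < T 100 (j + 1) := by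
  have key : ∀ x y : ℕ, 1 ≤ x → 4 * x ^ 2 < y → 4 * (2 ^ x) ^ 2 < 2 ^ y := by
    intro x y hx h
    have h1 : 2 * x + 2 < y := by nlinarith
    calc 4 * (2 ^ x) ^ 2 = 2 ^ (2 * x + 2) := by
          rw [← pow_mul, pow_add]; ring
      _ < 2 ^ y := Nat.pow_lt_pow_right (by norm_num) h1
  induction j with
  | zero =>
    refine ⟨by norm_num [T], by norm_num [T], by norm_num [T]⟩
  | succ j ih =>
    obtain ⟨h1, h2, h3⟩ := ih
    have h4 : 1 ≤ T 50000 j := by nlinarith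
    exact ⟨Nat.one_le_two_pow, key _ _ h1 h2, key _ _ h4 h3⟩

theorem good_or (K : ℕ) (hK : 100 ≤ K) : Gd 100 K ∨ Gd 50000 K := by
  -- the level of K in the first tower
  obtain ⟨j, hj1, hj2⟩ : ∃ j, T 100 j ≤ K ∧ K < T 100 (j + 1) := by
    have hex : ∃ j, K < T 100 (j + 1) :=
      ⟨K, lt_of_lt_of_le (Nat.lt_succ_self K) ((T_strictMono 100).id_le (K + 1))⟩
    classical
    refine ⟨Nat.find hex, ?_, Nat.find_spec hex⟩
    rcases Nat.eq_zero_or_pos (Nat.find hex) with h | h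
    · rw [h]; exact hK
    · obtain ⟨i, hi⟩ : ∃ i, Nat.find hex = i + 1 := ⟨Nat.find hex - 1, by omega⟩
      have := Nat.find_min hex (m := i) (by omega)
      rw [hi]
      omega
  by_cases h : 4 * K ^ 2 < T 100 (j + 1)
  · left; exact ⟨j, hj1, h⟩
  · right
    obtain ⟨h1, h2, h3⟩ := interlace j
    obtain ⟨h1', h2', h3'⟩ := interlace (j + 1)
    refine ⟨j, ?_, ?_⟩
    · by_contra hcon
      push Not at hcon h
      have : K ^ 2 < T 50000 j ^ 2 := Nat.pow_lt_pow_left hcon (by norm_num)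
      omega
    · have : K ^ 2 < T 100 (j + 1) ^ 2 := Nat.pow_lt_pow_left hj2 (by norm_num)
      omega

/-! ### The ultrafilter argument -/

theorem finite_mem {p : Ultrafilter ℕ+} (hp : ∀ n : ℕ+, p ≠ pure n) {s : Set ℕ+}
    (hs : sᶜ.Finite) : s ∈ p := by
  rcases p.le_cofinite_or_eq_pure with h | ⟨a, ha⟩
  · exact h (Filter.mem_cofinite.2 hs)
  · exact absurd ha (hp a)

theorem eventually_ge {p : Ultrafilter ℕ+} (hp : ∀ n : ℕ+, p ≠ pure n) (C : ℝ) :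
    ∀ᶠ m : ℕ+ in (p : Filter ℕ+), C < ((m : ℕ) : ℝ) := by
  apply finite_mem hp
  have hfin : (Set.Iic (⌈C⌉₊)).Finite := Set.finite_Iic _
  apply (hfin.preimage (f := fun m : ℕ+ => (m : ℕ)) (PNat.coe_injective.injOn)).subset
  intro m hm
  simp only [Set.mem_compl_iff, Set.mem_ofPred_eq, not_lt] at hm
  show (m : ℕ) ≤ ⌈C⌉₊
  exact_mod_cast hm.trans (Nat.le_ceil C)

theorem result (p : Ultrafilter ℕ+) (hp : ∀ n : ℕ+, p ≠ pure n) :
    {A : Set ℕ+ | {n : ℕ+ | {m : ℕ+ | n ^ (m : ℕ) ∈ A} ∈ p} ∈ p} ≠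
      {A : Set ℕ+ | {n : ℕ+ | {m : ℕ+ | m ^ (n : ℕ) ∈ A} ∈ p} ∈ p} := by
  intro hE
  have hiff : ∀ A : Set ℕ+, (∀ᶠ n : ℕ+ in (p : Filter ℕ+), ∀ᶠ m : ℕ+ in (p : Filter ℕ+), n ^ (m : ℕ) ∈ A) ↔
      (∀ᶠ n : ℕ+ in (p : Filter ℕ+), ∀ᶠ m : ℕ+ in (p : Filter ℕ+), m ^ (n : ℕ) ∈ A) := by
    intro A
    have := Set.ext_iff.1 hE A
    exact this
  have hge := eventually_ge hp
  -- step 1: log m < (kk m)^2 for most m
  have step1 : ∀ᶠ m : ℕ+ in (p : Filter ℕ+), Real.log (m : ℕ) < (kk (m : ℕ) : ℝ) ^ 2 := by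
    have h1 : ∀ᶠ n : ℕ+ in (p : Filter ℕ+), ∀ᶠ m : ℕ+ in (p : Filter ℕ+),
        n ^ (m : ℕ) ∈ {x : ℕ+ | (Real.log (x : ℕ)) ^ 2 < (kk (x : ℕ) : ℝ) ^ 3} := by
      filter_upwards [hge 1] with n hn
      have hn2 : 2 ≤ (n : ℕ) := by exact_mod_cast hn
      filter_upwards [hge ((Real.log (n : ℕ)) ^ 2)] with m hm
      have hk := one_le_kk n hn2
      simp only [Set.mem_ofPred_eq, PNat.pow_coe]
      rw [kk_pow _ _ m.ne_zero]
      push_cast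
      rw [Real.log_pow]
      have hm0 : (0 : ℝ) < (m : ℕ) := by exact_mod_cast m.pos
      have hk1 : (1 : ℝ) ≤ (kk (n : ℕ) : ℝ) := by exact_mod_cast hk
      have hk3 : (1 : ℝ) ≤ (kk (n : ℕ) : ℝ) ^ 3 := one_le_pow₀ hk1
      set M : ℝ := ((m : ℕ) : ℝ) with hM
      set l : ℝ := Real.log ((n : ℕ) : ℝ) with hl
      set k : ℝ := (kk (n : ℕ) : ℝ) with hk'
      calc (M * l) ^ 2 = M ^ 2 * l ^ 2 := by ring
        _ < M ^ 2 * M := by
          apply mul_lt_mul_of_pos_left hm; positivity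
        _ = M ^ 3 * 1 := by ring
        _ ≤ M ^ 3 * k ^ 3 := by
          apply mul_le_mul_of_nonneg_left hk3; positivity
        _ = (M * k) ^ 3 := by ring
    rw [hiff] at h1
    obtain ⟨n, hn⟩ := h1.exists
    filter_upwards [hn, hge 1, hge (Real.exp ((n : ℕ) ^ 2))] with m hm hm1 hm2
    simp only [Set.mem_ofPred_eq, PNat.pow_coe] at hm
    rw [kk_pow _ _ n.ne_zero] at hm
    push_cast at hm
    rw [Real.log_pow] at hm
    have hm1' : 2 ≤ (m : ℕ) := by exact_mod_cast hm1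
    have hk := one_le_kk m hm1'
    have hk1 : (1 : ℝ) ≤ (kk (m : ℕ) : ℝ) := by exact_mod_cast hk
    have hn0 : (0 : ℝ) < (n : ℕ) := by exact_mod_cast n.pos
    have hm' : (Real.log (m : ℕ)) ^ 2 < (n : ℕ) * (kk (m : ℕ) : ℝ) ^ 3 := by
      have h2 : ((n : ℕ) : ℝ) ^ 2 * (Real.log (m : ℕ)) ^ 2 <
          ((n : ℕ) : ℝ) ^ 2 * ((n : ℕ) * (kk (m : ℕ) : ℝ) ^ 3) := by
        calc ((n : ℕ) : ℝ) ^ 2 * (Real.log (m : ℕ)) ^ 2 = ((n : ℕ) * Real.log (m : ℕ)) ^ 2 := by ring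
          _ < ((n : ℕ) * (kk (m : ℕ) : ℝ)) ^ 3 := hm
          _ = ((n : ℕ) : ℝ) ^ 2 * ((n : ℕ) * (kk (m : ℕ) : ℝ) ^ 3) := by ring
      exact lt_of_mul_lt_mul_left h2 (by positivity)
    by_contra hcon
    push Not at hcon
    have hlog : ((n : ℕ) : ℝ) ^ 2 < Real.log (m : ℕ) := by
      rw [Real.lt_log_iff_exp_lt (by linarith)]
      exact hm2
    set k := (kk (m : ℕ) : ℝ) with hk'
    set l := Real.log (m : ℕ) with hl
    have h4 : (k ^ 2) ^ 2 ≤ l ^ 2 := by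
      apply pow_le_pow_left₀ (by positivity) hcon
    have h5 : k < (n : ℕ) := by
      have h6 : k ^ 3 * k < k ^ 3 * (n : ℕ) := by nlinarith
      exact lt_of_mul_lt_mul_left h6 (by positivity)
    have h7 : l ^ 2 < ((n : ℕ) : ℝ) ^ 4 := by
      have h8 : k ^ 3 ≤ ((n : ℕ) : ℝ) ^ 3 := pow_le_pow_left₀ (by linarith) h5.le 3
      calc l ^ 2 < (n : ℕ) * k ^ 3 := hm'
        _ ≤ (n : ℕ) * ((n : ℕ) : ℝ) ^ 3 := by
          apply mul_le_mul_of_nonneg_left h8 hn0.le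
        _ = ((n : ℕ) : ℝ) ^ 4 := by ring
    have h9 : (((n : ℕ) : ℝ) ^ 2) ^ 2 < l ^ 2 := by
      apply pow_lt_pow_left₀ hlog (by positivity) (by norm_num)
    nlinarith
  -- step 2: kk m is large for most m
  have step2 : ∀ C : ℕ, ∀ᶠ m : ℕ+ in (p : Filter ℕ+), C ≤ kk (m : ℕ) := by
    intro C
    filter_upwards [step1, hge 1, hge (Real.exp ((C : ℝ) ^ 2))] with m h1 h2 h3
    by_contra hcon
    push Not at hcon
    have h4 : ((C : ℝ)) ^ 2 < Real.log (m : ℕ) := by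
      rw [Real.lt_log_iff_exp_lt (by linarith)]
      exact h3
    have h5 : (kk (m : ℕ) : ℝ) ^ 2 ≤ (C : ℝ) ^ 2 := by
      apply pow_le_pow_left₀ (by positivity)
      exact_mod_cast hcon.le
    linarith
  -- step 3: choose the tower
  obtain ⟨a, ha⟩ : ∃ a, ∀ᶠ m : ℕ+ in (p : Filter ℕ+), Gd a (kk (m : ℕ)) := by
    have h1 : ∀ᶠ m : ℕ+ in (p : Filter ℕ+), Gd 100 (kk (m : ℕ)) ∨ Gd 50000 (kk (m : ℕ)) := by
      filter_upwards [step2 100] with m hm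
      exact good_or _ hm
    rcases Ultrafilter.eventually_or.1 h1 with h | h
    · exact ⟨_, h⟩
    · exact ⟨_, h⟩
  -- step 4: evaluate the test set on both sides
  have hE2 : ∀ n : ℕ+, ∀ᶠ m : ℕ+ in (p : Filter ℕ+),
      (kk ((m ^ (n : ℕ) : ℕ+) : ℕ) ∈ Ev a ↔ kk (m : ℕ) ∈ Ev a) := by
    intro n
    filter_upwards [ha, step2 n, hge 1] with m h1 h2 h3
    obtain ⟨j, h4, h5⟩ := h1
    simp only [PNat.pow_coe]
    rw [kk_pow _ _ n.ne_zero]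
    have hn := n.pos
    have h6 : kk (m : ℕ) ≤ (n : ℕ) * kk (m : ℕ) := Nat.le_mul_of_pos_left _ hn
    have h7 : (n : ℕ) * kk (m : ℕ) ≤ 4 * kk (m : ℕ) ^ 2 := by nlinarith
    have h8 : kk (m : ℕ) ≤ 4 * kk (m : ℕ) ^ 2 := h6.trans h7
    rw [mem_Ev_iff a _ j (h4.trans h6) (lt_of_le_of_lt h7 h5),
      mem_Ev_iff a _ j h4 (lt_of_le_of_lt h8 h5)]
  have hE1 : ∀ᶠ n : ℕ+ in (p : Filter ℕ+), ∀ᶠ m : ℕ+ in (p : Filter ℕ+),
      (kk ((n ^ (m : ℕ) : ℕ+) : ℕ) ∈ Ev a ↔ ¬ kk (m : ℕ) ∈ Ev a) := by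
    filter_upwards [hge 1] with n hn
    have hn2 : 2 ≤ (n : ℕ) := by exact_mod_cast hn
    filter_upwards [ha, step1, step2 1, step2 (kk (n : ℕ)), hge 1] with m h1 h2 h3 h4 h5
    have hm2 : 2 ≤ (m : ℕ) := by exact_mod_cast h5
    simp only [PNat.pow_coe]
    rw [kk_pow _ _ m.ne_zero]
    have hkn := one_le_kk n hn2
    have hlow := two_pow_kk_le m hm2
    set K := kk (m : ℕ) with hK
    -- m ≤ 2 ^ (2 K^2)
    have hup : (m : ℕ) ≤ 2 ^ (2 * K ^ 2) := by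
      have hm0 : (0 : ℝ) < ((m : ℕ) : ℝ) := by linarith
      have h6 : ((m : ℕ) : ℝ) < Real.exp ((K : ℝ) ^ 2) := by
        rw [← Real.log_lt_iff_lt_exp hm0]; exact h2
      have h7 : Real.exp ((K : ℝ) ^ 2) ≤ (2 : ℝ) ^ (2 * K ^ 2) := by
        have e1 : Real.exp ((K : ℝ) ^ 2) = (Real.exp 1) ^ (K ^ 2) := by
          rw [← Real.exp_nat_mul]; push_cast; ring_nf
        have e2 : (2 : ℝ) ^ (2 * K ^ 2) = 4 ^ (K ^ 2) := by
          rw [pow_mul]; norm_num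
        rw [e1, e2]
        apply pow_le_pow_left₀ (Real.exp_pos 1).le
        have := Real.exp_one_lt_d9
        linarith
      have h8 : ((m : ℕ) : ℝ) ≤ ((2 ^ (2 * K ^ 2) : ℕ) : ℝ) := by
        push_cast
        exact (h6.trans_le h7).le
      exact_mod_cast h8
    have hK2 : K ≤ 2 ^ (2 * K ^ 2) := by
      calc K ≤ 2 ^ K := Nat.lt_two_pow_self.le
        _ ≤ 2 ^ (2 * K ^ 2) := Nat.pow_le_pow_right (by norm_num) (by nlinarith)
    apply flip a K K _ h1 le_rfl (by nlinarith)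
    · exact hlow.trans (Nat.le_mul_of_pos_right _ hkn)
    · calc (m : ℕ) * kk (n : ℕ) ≤ 2 ^ (2 * K ^ 2) * 2 ^ (2 * K ^ 2) :=
          Nat.mul_le_mul hup (h4.trans hK2)
        _ = 2 ^ (4 * K ^ 2) := by rw [← pow_add]; ring_nf
  -- conclusion
  have hA := hiff {x : ℕ+ | kk (x : ℕ) ∈ Ev a}
  by_cases hS : ∀ᶠ m : ℕ+ in (p : Filter ℕ+), kk (m : ℕ) ∈ Ev a
  · have h1 : ∀ᶠ n : ℕ+ in (p : Filter ℕ+), ∀ᶠ m : ℕ+ in (p : Filter ℕ+),
        m ^ (n : ℕ) ∈ {x : ℕ+ | kk (x : ℕ) ∈ Ev a} := by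
      filter_upwards with n
      filter_upwards [hE2 n, hS] with m h2 h3
      exact h2.2 h3
    obtain ⟨n, h2, h3⟩ := ((hA.2 h1).and hE1).exists
    obtain ⟨m, h4, h5, h6⟩ := (h2.and (h3.and hS)).exists
    exact (h5.1 h4) h6
  · have hS' : ∀ᶠ m : ℕ+ in (p : Filter ℕ+), ¬ kk (m : ℕ) ∈ Ev a :=
      Ultrafilter.eventually_not.2 hS
    have h1 : ∀ᶠ n : ℕ+ in (p : Filter ℕ+), ∀ᶠ m : ℕ+ in (p : Filter ℕ+),
        n ^ (m : ℕ) ∈ {x : ℕ+ | kk (x : ℕ) ∈ Ev a} := by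
      filter_upwards [hE1] with n hn
      filter_upwards [hn, hS'] with m h2 h3
      exact h2.2 h3
    obtain ⟨n, h2⟩ := (hA.1 h1).exists
    obtain ⟨m, h4, h5, h6⟩ := (h2.and ((hE2 n).and hS')).exists
    exact h6 (h5.1 h4)

end Pool.Agent.Results.MP_d3b762_co.Main
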